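import Pool.Agent.N162.HN.Stm

/-!
Project HN (helper162), part DVR (helper426): the local ring of projective space at the
hypersurface.
-/

set_option autoImplicit false

open MvPolynomial
open Pool.Agent.N162.HN (Relns StDVR)

namespace Pool.Agent.N426.HN

section

variable {n : ℕ}

/-- dehomogenisation -/
noncomputable def dh (n : ℕ) : MvPolynomial (Fin (n + 2)) ℂ →ₐ[ℂ] MvPolynomial (Fin (n + 1)) ℂ :=
  aeval (Fin.cons 1 X)

theorem aeval_dh {S : Type} [CommRing S] [Algebra ℂ S] {y : Fin (n + 2) → S} (h : y 0 = 1)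
    (P : MvPolynomial (Fin (n + 2)) ℂ) :
    aeval (fun j : Fin (n + 1) => y j.succ) (dh n P) = aeval y P := by
  have e : (aeval (fun j : Fin (n + 1) => y j.succ)).comp (dh n) =
      (aeval y : MvPolynomial (Fin (n + 2)) ℂ →ₐ[ℂ] S) := by
    apply MvPolynomial.algHom_ext
    intro i
    refine Fin.cases ?_ (fun j => ?_) i
    · simp [dh, h]
    · simp [dh]
  rw [← e]
  rfl

theorem aeval_succ {S : Type} [CommRing S] [Algebra ℂ S] (y : Fin (n + 2) → S)
    (b : MvPolynomial (Fin (n + 1)) ℂ) :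
    aeval y (rename Fin.succ b) = aeval (fun j : Fin (n + 1) => y j.succ) b := by
  rw [aeval_rename]
  rfl

variable {K R : Type} [Field K] [Algebra ℂ K] [Field R] [Algebra ℂ R]
  {F : MvPolynomial (Fin (n + 2)) ℂ} {x : Fin (n + 2) → K} {Y : Fin (n + 2) → R}

theorem x_of_Y (hx : x 0 = 1) (hY : Y 0 = 1)
    (hinj : ∀ P : MvPolynomial (Fin (n + 1)) ℂ, aeval (fun j : Fin (n + 1) => Y j.succ) P = 0 →
      P = 0) {P : MvPolynomial (Fin (n + 2)) ℂ} (h : aeval Y P = 0) : aeval x P = 0 := by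
  have h1 := hinj (dh n P) (by rw [aeval_dh hY]; exact h)
  rw [← aeval_dh hx, h1, map_zero]

theorem dvd_of (_hx : x 0 = 1) (hR : Relns F x) (hY : Y 0 = 1)
    (hinj : ∀ P : MvPolynomial (Fin (n + 1)) ℂ, aeval (fun j : Fin (n + 1) => Y j.succ) P = 0 →
      P = 0) {b : MvPolynomial (Fin (n + 1)) ℂ}
    (hb : aeval (fun j : Fin (n + 1) => x j.succ) b = 0) : dh n F ∣ b := by
  obtain ⟨R₀, hR₀⟩ := hR (rename Fin.succ b) (by rw [aeval_succ]; exact hb)
  refine ⟨dh n R₀, ?_⟩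
  have h1 := hR₀ R Y hY
  rw [aeval_succ, ← aeval_dh hY F, ← aeval_dh hY R₀, ← map_mul] at h1
  have h2 := hinj (b - dh n F * dh n R₀) (by rw [map_sub, h1, sub_self])
  exact sub_eq_zero.1 h2

theorem prime_dh (hx : x 0 = 1) (hF : aeval x F = 0) (hR : Relns F x) (hY : Y 0 = 1)
    (hFY : aeval Y F ≠ 0)
    (hinj : ∀ P : MvPolynomial (Fin (n + 1)) ℂ, aeval (fun j : Fin (n + 1) => Y j.succ) P = 0 →
      P = 0) : Prime (dh n F) := by
  have h0 : aeval (fun j : Fin (n + 1) => x j.succ) (dh n F) = 0 := by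
    rw [aeval_dh hx, hF]
  refine ⟨?_, ?_, ?_⟩
  · intro h
    apply hFY
    rw [← aeval_dh hY, h, map_zero]
  · intro h
    have h1 := h.map (aeval (fun j : Fin (n + 1) => x j.succ) :
      MvPolynomial (Fin (n + 1)) ℂ →ₐ[ℂ] K)
    rw [h0] at h1
    exact not_isUnit_zero h1
  · rintro a b ⟨c, hc⟩
    have h1 : aeval (fun j : Fin (n + 1) => x j.succ) (a * b) = 0 := by
      rw [hc, map_mul, h0, zero_mul]
    rw [map_mul] at h1
    rcases mul_eq_zero.1 h1 with h2 | h2
    · exact Or.inl (dvd_of hx hR hY hinj h2)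
    · exact Or.inr (dvd_of hx hR hY hinj h2)

theorem fac (hx : x 0 = 1) (hF : aeval x F = 0) (hR : Relns F x) (hY : Y 0 = 1)
    (hFY : aeval Y F ≠ 0)
    (hinj : ∀ P : MvPolynomial (Fin (n + 1)) ℂ, aeval (fun j : Fin (n + 1) => Y j.succ) P = 0 →
      P = 0) {P : MvPolynomial (Fin (n + 2)) ℂ} (hP : aeval Y P ≠ 0) :
    ∃ (k : ℕ) (P' : MvPolynomial (Fin (n + 2)) ℂ), aeval x P' ≠ 0 ∧
      aeval Y P = aeval Y F ^ k * aeval Y P' := by
  have h0 : dh n P ≠ 0 := by
    intro h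
    apply hP
    rw [← aeval_dh hY, h, map_zero]
  obtain ⟨k, b, hb, hk⟩ := WfDvdMonoid.max_power_factor h0
    (prime_dh hx hF hR hY hFY hinj).irreducible
  refine ⟨k, rename Fin.succ b, fun h => hb (dvd_of hx hR hY hinj ?_), ?_⟩
  · rw [← aeval_succ]
    exact h
  · rw [← aeval_dh hY P, hk, map_mul, map_pow, aeval_dh hY, aeval_succ]

/-- the local ring -/
noncomputable def lr (x : Fin (n + 2) → K) (Y : Fin (n + 2) → R)
    (h : ∀ P : MvPolynomial (Fin (n + 2)) ℂ, aeval Y P = 0 → aeval x P = 0) : Subring R where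
  carrier := {a | ∃ P Q : MvPolynomial (Fin (n + 2)) ℂ, aeval x Q ≠ 0 ∧
    a = aeval Y P / aeval Y Q}
  mul_mem' := by
    rintro _ _ ⟨P, Q, hQ, rfl⟩ ⟨P', Q', hQ', rfl⟩
    exact ⟨P * P', Q * Q', by rw [map_mul]; exact mul_ne_zero hQ hQ', by
      rw [map_mul, map_mul, div_mul_div_comm]⟩
  one_mem' := ⟨1, 1, by rw [map_one]; exact one_ne_zero, by rw [map_one, div_one]⟩
  add_mem' := by
    rintro _ _ ⟨P, Q, hQ, rfl⟩ ⟨P', Q', hQ', rfl⟩
    have hy : aeval Y Q ≠ 0 := fun h1 => hQ (h Q h1)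
    have hy' : aeval Y Q' ≠ 0 := fun h1 => hQ' (h Q' h1)
    refine ⟨P * Q' + Q * P', Q * Q', by rw [map_mul]; exact mul_ne_zero hQ hQ', ?_⟩
    rw [div_add_div _ _ hy hy', map_add, map_mul, map_mul, map_mul]
  zero_mem' := ⟨0, 1, by rw [map_one]; exact one_ne_zero, by rw [map_zero, zero_div]⟩
  neg_mem' := by
    rintro _ ⟨P, Q, hQ, rfl⟩
    exact ⟨-P, Q, hQ, by rw [map_neg, neg_div]⟩

theorem mem_lr {h : ∀ P : MvPolynomial (Fin (n + 2)) ℂ, aeval Y P = 0 → aeval x P = 0} {a : R} :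
    a ∈ lr x Y h ↔ ∃ P Q : MvPolynomial (Fin (n + 2)) ℂ, aeval x Q ≠ 0 ∧
      a = aeval Y P / aeval Y Q := Iff.rfl

theorem lr_unit {h : ∀ P : MvPolynomial (Fin (n + 2)) ℂ, aeval Y P = 0 → aeval x P = 0}
    (a : lr x Y h) {P Q : MvPolynomial (Fin (n + 2)) ℂ} (hP : aeval x P ≠ 0)
    (hQ : aeval x Q ≠ 0) (ha : (a : R) = aeval Y P / aeval Y Q) : IsUnit a := by
  have hy : aeval Y P ≠ 0 := fun h1 => hP (h P h1)
  have hy' : aeval Y Q ≠ 0 := fun h1 => hQ (h Q h1)
  refine IsUnit.of_mul_eq_one ⟨aeval Y Q / aeval Y P, Q, P, hP, rfl⟩ (Subtype.ext ?_)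
  show (a : R) * (aeval Y Q / aeval Y P) = 1
  rw [ha]
  field_simp

end

/-- **HN/DVR** -/
theorem dvr_ : StDVR := by
  intro n K R _ _ _ _ F x hx hF hR Y hY hFY hinj hgen
  have h : ∀ P : MvPolynomial (Fin (n + 2)) ℂ, aeval Y P = 0 → aeval x P = 0 :=
    fun P hP => x_of_Y hx hY hinj hP
  let t : lr x Y h := ⟨aeval Y F, F, 1, by rw [map_one]; exact one_ne_zero, by
    rw [map_one, div_one]⟩
  have hpr := prime_dh hx hF hR hY hFY hinj
  have hirr : Irreducible t := by
    constructor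
    · intro hu
      obtain ⟨⟨b, P, Q, hQ, rfl⟩, hb⟩ := hu.exists_right_inv
      have hb' : aeval Y F * (aeval Y P / aeval Y Q) = 1 := congrArg Subtype.val hb
      have hy : aeval Y Q ≠ 0 := fun h1 => hQ (h Q h1)
      have h2 : aeval Y (F * P - Q) = 0 := by
        rw [map_sub, map_mul]
        field_simp at hb'
        rw [hb', sub_self]
      have h3 := h _ h2
      rw [map_sub, map_mul, hF, zero_mul, zero_sub, neg_eq_zero] at h3
      exact hQ h3
    · rintro ⟨a, P, Q, hQ, rfl⟩ ⟨b, P', Q', hQ', rfl⟩ hab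
      have hab' : aeval Y F = aeval Y P / aeval Y Q * (aeval Y P' / aeval Y Q') :=
        congrArg Subtype.val hab
      have hy : aeval Y Q ≠ 0 := fun h1 => hQ (h Q h1)
      have hy' : aeval Y Q' ≠ 0 := fun h1 => hQ' (h Q' h1)
      by_cases hP : aeval x P = 0
      · by_cases hP' : aeval x P' = 0
        · exfalso
          rw [← aeval_dh hx] at hP hP'
          obtain ⟨c, hc⟩ := dvd_of hx hR hY hinj hP
          obtain ⟨c', hc'⟩ := dvd_of hx hR hY hinj hP'
          have h2 : aeval Y F * (aeval Y Q * aeval Y Q') = aeval Y P * aeval Y P' := by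
            rw [hab']
            field_simp
          rw [← aeval_dh hY F, ← aeval_dh hY Q, ← aeval_dh hY Q', ← aeval_dh hY P,
            ← aeval_dh hY P', hc, hc'] at h2
          have h3 := hinj (dh n F * (dh n Q * dh n Q') - dh n F * c * (dh n F * c')) (by
            rw [map_sub, map_mul _ (dh n F) (dh n Q * dh n Q'), map_mul _ (dh n Q) (dh n Q'), h2,
              ← map_mul, sub_self])
          have h4 : dh n F * (dh n Q * dh n Q' - dh n F * (c * c')) = 0 := by
            rw [← h3]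
            ring
          rcases mul_eq_zero.1 h4 with h5 | h5
          · exact hpr.ne_zero h5
          · have h6 := congrArg (aeval (fun j : Fin (n + 1) => x j.succ)) h5
            rw [map_sub, map_mul, map_mul, aeval_dh hx, aeval_dh hx, aeval_dh hx, hF, zero_mul,
              sub_zero, map_zero] at h6
            rcases mul_eq_zero.1 h6 with h7 | h7
            · exact hQ h7
            · exact hQ' h7
        · exact Or.inr (lr_unit _ hP' hQ' rfl)
      · exact Or.inl (lr_unit _ hP hQ rfl)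
  have hfac : ∀ a : lr x Y h, a ≠ 0 → ∃ k : ℕ, Associated (t ^ k) a := by
    rintro ⟨a, P, Q, hQ, rfl⟩ ha
    have hy : aeval Y Q ≠ 0 := fun h1 => hQ (h Q h1)
    have hP : aeval Y P ≠ 0 := by
      intro h1
      apply ha
      apply Subtype.ext
      show aeval Y P / aeval Y Q = 0
      rw [h1, zero_div]
    obtain ⟨k, P', hP', hk⟩ := fac hx hF hR hY hFY hinj hP
    refine ⟨k, (lr_unit (h := h) (P := P') (Q := Q) ⟨aeval Y P' / aeval Y Q, P', Q, hQ, rfl⟩
      hP' hQ rfl).unit, Subtype.ext ?_⟩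
    show aeval Y F ^ k * (aeval Y P' / aeval Y Q) = aeval Y P / aeval Y Q
    rw [hk]
    ring
  have hdvr : IsDiscreteValuationRing (lr x Y h) :=
    IsDiscreteValuationRing.ofHasUnitMulPowIrreducibleFactorization
      ⟨t, hirr, fun {a} ha => hfac a ha⟩
  have hfr : IsFractionRing (lr x Y h) R := by
    apply IsFractionRing.of_field
    intro z
    have hz : z ∈ IntermediateField.adjoin ℂ (Set.range Y) := by
      rw [hgen]
      exact IntermediateField.mem_top
    obtain ⟨P, Q, hz⟩ := (IntermediateField.mem_adjoin_range_iff ℂ Y z).1 hz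
    refine ⟨⟨aeval Y P, P, 1, by rw [map_one]; exact one_ne_zero, by rw [map_one, div_one]⟩,
      ⟨aeval Y Q, Q, 1, by rw [map_one]; exact one_ne_zero, by rw [map_one, div_one]⟩, hz⟩
  exact ⟨lr x Y h, hdvr, hfr, t, hirr, rfl, fun a => Iff.rfl⟩

end Pool.Agent.N426.HN
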